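import Pool.Agent.Helper76.CV.Goals

/-! # Packet CV-LOA (MP_eec6f5_gt): the local forms -/

set_option autoImplicit false

open scoped ContDiff
open Filter Topology

namespace Pool.Agent.Helper20.CV.LOA

open Pool.Agent.Helper76.CV

variable {r : ℕ}

lemma contA (D : Dat r) (hD : Good D) : Continuous (qA D) := by
  have h1 := hD.sθ.continuous
  have h2 : ∀ j, Continuous (D.α j) := fun j => (hD.sα j).continuous
  unfold qA
  fun_prop

lemma contB (D : Dat r) (hD : Good D) : Continuous (qB D) := by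
  have h2 : ∀ j, Continuous (D.α j) := fun j => (hD.sα j).continuous
  unfold qB
  fun_prop

lemma zeroA (hZP : ZP) (D : Dat r) (hD : Good D) (x : ℝ × E (r + 3))
    (h : (4 / 25 : ℝ) ^ 2 ≤ qA D x) : ∀ᶠ x' in 𝓝 x, ZA D x' = 0 :=
  (contA D hD).continuousAt.eventually (hZP.2.2 _ h)

lemma zeroB (hZP : ZP) (D : Dat r) (hD : Good D) (x : ℝ × E (r + 3))
    (h : (4 / 25 : ℝ) ^ 2 ≤ qB D x) : ∀ᶠ x' in 𝓝 x, ZB D x' = 0 := by
  have h1 := (contB D hD).continuousAt.eventually (hZP.2.2 _ h)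
  filter_upwards [h1] with x' hx'
  unfold ZB
  rw [hx', mul_zero]

lemma norm3 (y : E (r + 3)) : y 0 ^ 2 + y 1 ^ 2 + y 2 ^ 2 ≤ ‖y‖ ^ 2 := by
  rw [EuclideanSpace.real_norm_sq_eq, Fin.sum_univ_succ, Fin.sum_univ_succ, Fin.sum_univ_succ]
  have h : 0 ≤ ∑ i : Fin r, y i.succ.succ.succ ^ 2 := Finset.sum_nonneg fun i _ => sq_nonneg _
  have e1 : (Fin.succ (0 : Fin (r + 2)) : Fin (r + 3)) = 1 := rfl
  have e2 : (Fin.succ (Fin.succ (0 : Fin (r + 1))) : Fin (r + 3)) = 2 := rfl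
  rw [e1, e2]
  linarith

lemma numA (y0 y1 y2 c s n2 : ℝ) (hcs : c ^ 2 + s ^ 2 = 1) (h3 : y0 ^ 2 + y1 ^ 2 + y2 ^ 2 ≤ n2)
    (h : n2 ≤ (6 / 25) ^ 2) : (4 / 25 : ℝ) ^ 2 ≤ (y1 - 2 / 5 * c) ^ 2 + (y0 - 2 / 5 * s) ^ 2 := by
  obtain ⟨ρ, hρ⟩ : ∃ ρ, ρ = √(y0 ^ 2 + y1 ^ 2) := ⟨_, rfl⟩
  have hρ0 : 0 ≤ ρ := by rw [hρ]; exact Real.sqrt_nonneg _
  have hρ2 : ρ ^ 2 = y0 ^ 2 + y1 ^ 2 := by rw [hρ]; exact Real.sq_sqrt (by positivity)
  have hρ3 : ρ ≤ 6 / 25 := by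
    apply (abs_le_of_sq_le_sq' _ (by norm_num)).2
    linarith [sq_nonneg y2]
  have hk : y1 * c + y0 * s ≤ ρ := by
    apply (abs_le_of_sq_le_sq' _ hρ0).2
    have h4 : (y1 * c + y0 * s) ^ 2 + (y1 * s - y0 * c) ^ 2 =
      (y0 ^ 2 + y1 ^ 2) * (c ^ 2 + s ^ 2) := by ring
    rw [hcs, ← hρ2] at h4
    linarith [sq_nonneg (y1 * s - y0 * c)]
  have e : (y1 - 2 / 5 * c) ^ 2 + (y0 - 2 / 5 * s) ^ 2 =
      ρ ^ 2 - 4 / 5 * (y1 * c + y0 * s) + 4 / 25 * (c ^ 2 + s ^ 2) := by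
    rw [hρ2]; ring
  rw [e, hcs]
  have e2 : ρ ^ 2 - 4 / 5 * ρ + 4 / 25 = (2 / 5 - ρ) ^ 2 := by ring
  have e3 : (4 / 25 : ℝ) ^ 2 ≤ (2 / 5 - ρ) ^ 2 := by
    apply pow_le_pow_left₀ (by norm_num)
    linarith
  linarith

lemma numB (y0 y1 y2 n2 : ℝ) (h3 : y0 ^ 2 + y1 ^ 2 + y2 ^ 2 ≤ n2)
    (h : n2 ≤ (6 / 25) ^ 2) : (4 / 25 : ℝ) ^ 2 ≤ ((12 * y1 + 5 * y2) / 13 - 2 / 5) ^ 2 := by
  have hk : (12 * y1 + 5 * y2) / 13 ≤ 6 / 25 := by
    apply (abs_le_of_sq_le_sq' _ (by norm_num)).2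
    have h4 : ((12 * y1 + 5 * y2) / 13) ^ 2 + ((5 * y1 - 12 * y2) / 13) ^ 2 =
      y1 ^ 2 + y2 ^ 2 := by ring
    linarith [sq_nonneg ((5 * y1 - 12 * y2) / 13), sq_nonneg y0]
  have e1 : ((12 * y1 + 5 * y2) / 13 - 2 / 5) ^ 2 = (2 / 5 - (12 * y1 + 5 * y2) / 13) ^ 2 := by ring
  rw [e1]
  apply pow_le_pow_left₀ (by norm_num)
  linarith

lemma neckA (D : Dat r) (hD : Good D) (x : ℝ × E (r + 3)) (h : ‖x.2‖ ^ 2 ≤ (6 / 25) ^ 2) :
    (4 / 25 : ℝ) ^ 2 ≤ qA D x := by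
  have hs : 0 ≤ ∑ j : Fin r, D.α j x.1 * (x.2 j.succ.succ.succ) ^ 2 :=
    Finset.sum_nonneg fun j _ => mul_nonneg (hD.α0 j _) (sq_nonneg _)
  have h4 := numA (x.2 0) (x.2 1) (x.2 2) _ _ _ (Real.cos_sq_add_sin_sq (D.θ x.1)) (norm3 x.2) h
  unfold qA
  linarith

lemma neckB (D : Dat r) (hD : Good D) (x : ℝ × E (r + 3)) (h : ‖x.2‖ ^ 2 ≤ (6 / 25) ^ 2) :
    (4 / 25 : ℝ) ^ 2 ≤ qB D x := by
  have hs : 0 ≤ ∑ j : Fin r, (1 - D.α j x.1) * (x.2 j.succ.succ.succ) ^ 2 :=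
    Finset.sum_nonneg fun j _ => mul_nonneg (by linarith [hD.α1 j x.1]) (sq_nonneg _)
  have h4 := numB (x.2 0) (x.2 1) (x.2 2) _ (norm3 x.2) h
  unfold qB
  linarith [sq_nonneg (x.2 0)]

lemma locA (hPRA : PRA) (D : Dat r) (hD : Good D) (p : V r) (hL : Lf D p (ZA D))
    (hc : Flat D p.1.1 ∨ Cap D p.1.1) : LocForm D p := by
  have hA : ∃ A : Fin r → Bool, ∀ᶠ u in 𝓝 p.1.1, ∀ j, D.α j u = if A j then 1 else 0 := by
    rcases hc with h | h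
    · exact h.2.2.2.1
    · exact h.2.2.1
  obtain ⟨A, hA⟩ := hA
  obtain ⟨P, a, h1, h2, h3, h4, h5, h6, h7, h8, h9, h10⟩ := hPRA r A D.θ hD.sθ
  refine ⟨ZA D, hL, Or.inr ⟨P, a, 1, ?_, Or.inl rfl, ?_⟩⟩
  · refine ⟨h1, h2, h3, h4, h5, ?_, ?_⟩
    · have k1 := h7 p.1.1 p.1.2
      have k2 := Real.abs_sin_le_one (D.θ p.1.1)
      have k3 : |p.1.2 0| ≤ |p.1.2 0 - 2 / 5 * Real.sin (D.θ p.1.1)| +
          |2 / 5 * Real.sin (D.θ p.1.1)| := by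
        have := abs_add_le (p.1.2 0 - 2 / 5 * Real.sin (D.θ p.1.1)) (2 / 5 * Real.sin (D.θ p.1.1))
        simpa using this
      rw [abs_mul, abs_of_pos (by norm_num : (0 : ℝ) < 2 / 5)] at k3
      linarith
    · rcases hc with h | h
      · left
        obtain ⟨k1, k2, k3, -⟩ := h
        refine ⟨k1, ?_, ?_⟩
        · have := h8 p.1.1
          linarith [abs_nonneg (deriv D.θ p.1.1)]
        · have := h9 p.1.1
          have k4 : deriv D.θ p.1.1 ^ 2 ≤ 1 / 10 ^ 6 * (1 / 10 ^ 6) := by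
            rw [← sq_abs, pow_two]
            exact mul_le_mul k2 k2 (abs_nonneg _) (by norm_num)
          nlinarith
      · right
        obtain ⟨k1, k2, -⟩ := h
        obtain ⟨k3, k4⟩ := h10 p.1.1 k2
        refine ⟨k1, k3, k4, ?_⟩
        have k5 := (k2.self_of_nhds).2
        have k6 := h7 p.1.1 p.1.2
        rw [k5, mul_zero, sub_zero] at k6
        exact k6
  · have hA' : ∀ᶠ x in 𝓝 p.1, ∀ j, D.α j x.1 = if A j then 1 else 0 :=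
      continuous_fst.continuousAt.eventually hA
    filter_upwards [hA'] with x hx
    rw [one_mul, ← h6 x.1 x.2]
    unfold ZA qA
    congr 2
    exact Finset.sum_congr rfl fun j _ => by rw [hx j]

lemma locB (hPRB : PRB) (D : Dat r) (p : V r) (hL : Lf D p (fun x => -ZB D x))
    (hc : Flat D p.1.1 ∨ Cap D p.1.1) : LocForm D p := by
  have hA : LocConst D p.1.1 := by
    rcases hc with h | h
    · exact h.2.2.2
    · exact h.2.2
  obtain ⟨⟨A, hA⟩, hβ⟩ := hA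
  rcases hβ with hβ | hβ
  · refine ⟨_, hL, Or.inl ?_⟩
    have hβ' : ∀ᶠ x in 𝓝 p.1, D.β x.1 = 0 := continuous_fst.continuousAt.eventually hβ
    filter_upwards [hβ'] with x hx
    unfold ZB
    rw [hx, zero_mul, neg_zero]
  · obtain ⟨P, b, h1, h2, h3, h4, h5, h6⟩ := hPRB r A
    refine ⟨_, hL, Or.inr ⟨P, fun _ => b, -1, ?_, Or.inr rfl, ?_⟩⟩
    · have d1 : deriv (fun _ : ℝ => b) = fun _ => 0 := by
        funext u; simp
      have d2 : deriv (fun _ : ℝ => b) p.1.1 = 0 := by rw [d1]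
      have d3 : deriv (deriv (fun _ : ℝ => b)) p.1.1 = 0 := by rw [d1]; simp
      refine ⟨h1, h2, fun _ => h3, contDiff_const, fun _ => h4, ?_, ?_⟩
      · have := h6 p.1.2
        linarith
      · rcases hc with h | h
        · left
          refine ⟨h.1, ?_, ?_⟩
          · rw [d2, norm_zero]; norm_num
          · rw [d3, norm_zero]; norm_num
        · right
          exact ⟨h.1, d2, d3, h6 p.1.2⟩
    · have hA' : ∀ᶠ x in 𝓝 p.1, ∀ j, D.α j x.1 = if A j then 1 else 0 :=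
        continuous_fst.continuousAt.eventually hA
      have hβ' : ∀ᶠ x in 𝓝 p.1, D.β x.1 = 1 := continuous_fst.continuousAt.eventually hβ
      filter_upwards [hA', hβ'] with x hx hx'
      have h7 := h5 x.2
      rw [← h7]
      unfold ZB qB
      rw [hx', one_mul, neg_one_mul]
      congr 3
      exact Finset.sum_congr rfl fun j _ => by rw [hx j]

theorem t (hZP : ZP) (hXB : XB) (hPRA : PRA) (hPRB : PRB) (hLOZ : LOZ) : LOA := by
  intro r D p hD hp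
  obtain ⟨-, hU0, -, hC1, -, -⟩ := hXB r D p hD hp
  have hneck : Neck D p.1.1 → ‖p.1.2‖ ^ 2 ≤ (6 / 25) ^ 2 := by
    intro h
    have h1 : 9424 / 10000 ≤ D.C p.1.1 := h.1
    unfold U at hU0
    norm_num at h1 ⊢
    linarith
  rcases hLOZ r D p hD hp with hL | hL
  · rcases hD.cas p.1.1 hC1 with h | h | h
    · exact locA hPRA D hD p hL (Or.inl h)
    · exact locA hPRA D hD p hL (Or.inr h)
    · exact ⟨_, hL, Or.inl (zeroA hZP D hD p.1 (neckA D hD p.1 (hneck h)))⟩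
  · rcases hD.cas p.1.1 hC1 with h | h | h
    · exact locB hPRB D p hL (Or.inl h)
    · exact locB hPRB D p hL (Or.inr h)
    · refine ⟨_, hL, Or.inl ?_⟩
      filter_upwards [zeroB hZP D hD p.1 (neckB D hD p.1 (hneck h))] with x hx
      rw [hx, neg_zero]

end Pool.Agent.Helper20.CV.LOA
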